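import Pool.Agent.Helper53.AJ.Defs
import Pool.Agent.Helper12.JJ.Sw

/-!
# Growth of the number of models: meeting blocks, maximal families
-/

set_option autoImplicit false

namespace Pool.Agent.Helper53.AJ

open FirstOrder Pool.Agent.Helper20.Spectra Pool.Agent.Helper58.QD Pool.Agent.Helper14.SS
open Pool.Agent.Helper31.QD (Au)
open Pool.Agent.Helper40.MCM
open Pool.Agent.Helper38.MC (AuG)
open Pool.Agent.Helper12.JJ

variable {S : Type} {ar : S → ℕ}

lemma rcl_aut {V : Type} {R : Interp S ar V} {r : ℕ} (hr : ∀ s, ar s ≤ r) : RCl (AuG R) r := by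
  classical
  intro σ h s t
  obtain ⟨g, hg, hgt⟩ := h (Finset.univ.image t) (Finset.card_image_le.trans (by
    rw [Finset.card_univ, Fintype.card_fin]; exact hr s))
  have e : (⇑σ ∘ t) = ⇑g ∘ t := by
    funext i
    exact (hgt (t i) (Finset.mem_image_of_mem _ (Finset.mem_univ i))).symm
  rw [e]
  exact hg s t

lemma IsSw.unique {V ι : Type} {σ τ : Equiv.Perm V} {a b : ι → V} (h : IsSw σ a b) (h' : IsSw τ a b) :
    σ = τ := by
  ext v
  by_cases h1 : ∃ i, v = a i
  · obtain ⟨i, rfl⟩ := h1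
    rw [h.1, h'.1]
  by_cases h2 : ∃ i, v = b i
  · obtain ⟨i, rfl⟩ := h2
    rw [h.2.1, h'.2.1]
  push Not at h1 h2
  rw [h.2.2 v h1 h2, h'.2.2 v h1 h2]

/-- the block permutation of a transposition is an exchange -/
lemma isSw_bm {V : Type} {q t : ℕ} {u : Fin q × Fin t → V} (hu : Function.Injective u) {a b : Fin q}
    (hab : a ≠ b) : IsSw (bm u hu (Equiv.swap a b)) (fun x => u (a, x)) (fun x => u (b, x)) := by
  refine ⟨fun x => ?_, fun x => ?_, fun v h1 h2 => ?_⟩
  · show bm u hu (Equiv.swap a b) (u (a, x)) = u (b, x)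
    rw [bm_apply, Equiv.swap_apply_left]
  · show bm u hu (Equiv.swap a b) (u (b, x)) = u (a, x)
    rw [bm_apply, Equiv.swap_apply_right]
  · by_cases hv : ∃ p, u p = v
    · obtain ⟨⟨c, x⟩, rfl⟩ := hv
      rw [bm_apply, Equiv.swap_apply_of_ne_of_ne]
      · rintro rfl
        exact h1 x rfl
      · rintro rfl
        exact h2 x rfl
    · push Not at hv
      exact bm_off u hu _ v hv

/-- homogeneous families from exchanges -/
lemma hm_of_ex {V : Type} {R : Interp S ar V} {q t : ℕ} {u : Fin q × Fin t → V}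
    (hu : Function.Injective u)
    (h : ∀ a b : Fin q, a ≠ b → ∃ σ ∈ AuG R, IsSw σ (fun x => u (a, x)) (fun x => u (b, x))) :
    Hm R u := by
  refine hm_of_swap hu (fun a b hab => ?_)
  obtain ⟨σ, hσ, hs⟩ := h a b hab
  rw [IsSw.unique (isSw_bm hu hab) hs]
  exact hσ

lemma Hm.ex {V : Type} {R : Interp S ar V} {q t : ℕ} {u : Fin q × Fin t → V} (hu : Hm R u)
    {a b : Fin q} (hab : a ≠ b) : Ex (AuG R) (fun x => u (a, x)) (fun x => u (b, x)) := by
  refine ⟨fun x y h => ?_, fun x y h => ?_, fun x y h => ?_, _, hu.bm (Equiv.swap a b),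
    isSw_bm hu.1 hab⟩
  · exact congrArg Prod.snd (hu.1 h)
  · exact congrArg Prod.snd (hu.1 h)
  · exact hab (congrArg Prod.fst (hu.1 h))

/-- the number of blocks which meet a small set -/
lemma few_meet {V : Type} {q t : ℕ} {u : Fin q × Fin t → V} (hu : Function.Injective u) {n : ℕ}
    (a : Fin n → V) [DecidablePred (fun i : Fin q => ∃ x c, u (i, x) = a c)] :
    (Finset.univ.filter (fun i : Fin q => ∃ x c, u (i, x) = a c)).card ≤ n := by
  classical
  have hf : ∀ i : {i // i ∈ Finset.univ.filter (fun i : Fin q => ∃ x c, u (i, x) = a c)},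
      ∃ c x, u (i.1, x) = a c := fun i => by
    obtain ⟨x, c, h⟩ := (Finset.mem_filter.1 i.2).2
    exact ⟨c, x, h⟩
  choose f hf' using hf
  have hinj : Function.Injective f := by
    intro i j e
    obtain ⟨x, hx⟩ := hf' i
    obtain ⟨y, hy⟩ := hf' j
    rw [e, ← hy] at hx
    exact Subtype.ext (congrArg Prod.fst (hu hx))
  have h1 := Fintype.card_le_of_injective f hinj
  rw [Fintype.card_coe, Fintype.card_fin] at h1
  exact h1

/-- B: meeting blocks. 3-cycles: `J` = the `y` with `w (j, y)` in the block `i` of `u`. -/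
theorem meet {V : Type} {R : Interp S ar V} {r k N : ℕ} (hr : ∀ s, ar s ≤ r) (hN : 2 * k + r + 4 ≤ N)
    {q t : ℕ} {u : Fin q × Fin t → V} (hu : Hm R u) (ht : t ≤ k) (hq : N ≤ q) {q' t' : ℕ}
    {w : Fin q' × Fin t' → V} (hw : Irr R w) (ht' : t' ≤ k) (hq' : N ≤ q') {i : Fin q} {x : Fin t} {j : Fin q'}
    {y : Fin t'} (h : u (i, x) = w (j, y)) : ∀ y', ∃ x', w (j, y') = u (i, x') := by
  classical
  by_contra hcon
  push Not at hcon
  obtain ⟨y₀, hy₀⟩ := hcon
  -- a block `i'` of `u` disjoint from `w j` and different from `i`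
  let F0 : Finset (Fin q) := Finset.univ.filter (fun i : Fin q => ∃ x c, u (i, x) = w (j, c))
  have hF0 : F0.card ≤ t' := few_meet hu.1 (fun c : Fin t' => w (j, c))
  obtain ⟨i', hi'⟩ : ∃ i', i' ∉ insert i F0 := by
    by_contra hc
    push Not at hc
    have h1 := Finset.card_le_card (show (Finset.univ : Finset (Fin q)) ⊆ insert i F0 from fun a _ => hc a)
    have h3 := Finset.card_insert_le i F0
    rw [Finset.card_univ, Fintype.card_fin] at h1
    omega
  rw [Finset.mem_insert, not_or, Finset.mem_filter] at hi'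
  obtain ⟨hi1, hi2⟩ := hi'
  have hdj : ∀ x c, u (i', x) ≠ w (j, c) := fun x c e => hi2 ⟨Finset.mem_univ _, x, c, e⟩
  -- the blocks of `w` which are disjoint from `u i`, `u i'`
  let F1 := Finset.univ.filter (fun l : Fin q' => ∃ y c, w (l, y) = (fun c : Fin t => u (i, c)) c)
  let F2 := Finset.univ.filter (fun l : Fin q' => ∃ y c, w (l, y) = (fun c : Fin t => u (i', c)) c)
  have hF1 : F1.card ≤ t := few_meet hw.1.1 (fun c : Fin t => u (i, c))
  have hF2 : F2.card ≤ t := few_meet hw.1.1 (fun c : Fin t => u (i', c))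
  have hjF1 : j ∈ F1 := Finset.mem_filter.2 ⟨Finset.mem_univ _, y, x, h.symm⟩
  have hjF2 : j ∉ F2 := fun hj => by
    obtain ⟨y, c, e⟩ := (Finset.mem_filter.1 hj).2
    exact hdj c y e.symm
  let P : Finset (Fin q') := Finset.univ \ (F1 ∪ F2)
  have hP : r + 4 ≤ P.card := by
    have h1 := Finset.card_union_le F1 F2
    have h2 : P.card = q' - (F1 ∪ F2).card := by
      show (Finset.univ \ (F1 ∪ F2)).card = _
      rw [Finset.card_univ_sdiff, Fintype.card_fin]
    omega
  have hP1 : ∀ l ∈ P, ∀ y c, w (l, y) ≠ u (i, c) := by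
    intro l hl y c e
    have h1 := (Finset.mem_sdiff.1 hl).2
    rw [Finset.mem_union, not_or] at h1
    exact h1.1 (Finset.mem_filter.2 ⟨Finset.mem_univ _, y, c, e⟩)
  have hP2 : ∀ l ∈ P, ∀ y c, w (l, y) ≠ u (i', c) := by
    intro l hl y c e
    have h1 := (Finset.mem_sdiff.1 hl).2
    rw [Finset.mem_union, not_or] at h1
    exact h1.2 (Finset.mem_filter.2 ⟨Finset.mem_univ _, y, c, e⟩)
  have hjP : j ∉ P := fun hj => hP1 j hj y x h.symm
  -- the family
  let κ := {l : Fin q' // l = j ∨ l ∈ P}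
  let U : κ → Fin t' → V := fun l y => w (l.1, y)
  let I : Finset κ := P.attach.image (fun l => ⟨l.1, Or.inr l.2⟩)
  have hIc : I.card = P.card := by
    show (P.attach.image _).card = _
    rw [Finset.card_image_of_injective, Finset.card_attach]
    intro a b hab
    exact Subtype.ext (congrArg (fun z : κ => z.1) hab)
  have hImem : ∀ l : κ, l ∈ I ↔ l.1 ∈ P := by
    intro l
    constructor
    · intro hl
      obtain ⟨a, -, rfl⟩ := Finset.mem_image.1 hl
      exact a.2
    · intro hl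
      exact Finset.mem_image.2 ⟨⟨l.1, hl⟩, Finset.mem_attach _ _, rfl⟩
  have hUinj : ∀ (a b : κ) (p q : Fin t'), U a p = U b q → a = b ∧ p = q := by
    intro a b p q e
    have h1 := hw.1.1 e
    exact ⟨Subtype.ext (congrArg Prod.fst h1), congrArg Prod.snd h1⟩
  have hUG : ∀ a b : κ, a ≠ b → ∃ σ ∈ AuG R, IsSw σ (U a) (U b) := by
    intro a b hab
    exact (hw.1.ex (a := a.1) (b := b.1) (fun e => hab (Subtype.ext e))).mem
  have hb : ∀ (c : Fin t) (a : κ) (p : Fin t'), u (i', c) ≠ U a p := by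
    rintro c ⟨l, rfl | hl⟩ p e
    · exact hdj c p e
    · exact hP2 l hl p c e.symm
  obtain ⟨z, hz, hzI⟩ := step3 (rcl_aut hr) (hu.ex (Ne.symm hi1)) hUinj hUG hb ⟨j, Or.inl rfl⟩ I
    (fun a ha p c => hP1 a.1 ((hImem a).1 ha) p c) (fun hj => hjP ((hImem _).1 hj))
    (by rw [hIc]; omega)
  -- two blocks whose `J`-parts are exchangeable
  obtain ⟨l, hl, l', hl', hll⟩ := Finset.one_lt_card.1 (show 1 < P.card by omega)
  have hEx := (hzI ⟨l, Or.inr hl⟩ ((hImem _).2 hl)).symm.trans (hzI ⟨l', Or.inr hl'⟩ ((hImem _).2 hl'))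
    (fun p p' e => hll (congrArg Prod.fst (hw.1.1 e)))
  obtain ⟨σ, hσ, hs⟩ := hEx.mem
  let π := {p : Fin t' // ∃ c, U ⟨j, Or.inl rfl⟩ p = u (i, c)}
  have hπ1 : 1 ≤ Fintype.card π := Fintype.card_pos_iff.2 ⟨⟨y, x, h.symm⟩⟩
  have hπs : Fintype.card π < t' := by
    have h1 : Fintype.card π < Fintype.card (Fin t') :=
      Fintype.card_subtype_lt (x := y₀) (fun ⟨c, hc⟩ => hy₀ c hc)
    rwa [Fintype.card_fin] at h1
  let e : Fin (Fintype.card π) ≃ π := (Fintype.equivFin π).symm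
  have heinj : Function.Injective (fun x => (e x).1) := fun a b hab => e.injective (Subtype.ext hab)
  refine hw.2.2 (Fintype.card π) (fun x => (e x).1) heinj hπ1 hπs ?_
  have hinj : Function.Injective (fun p : Fin q' × Fin (Fintype.card π) => w (p.1, (e p.2).1)) := by
    rintro ⟨a, x⟩ ⟨b, x'⟩ hab
    have h1 := hw.1.1 hab
    have h2 : a = b := congrArg Prod.fst h1
    have h3 : (e x).1 = (e x').1 := congrArg Prod.snd h1
    exact Prod.ext h2 (heinj h3)
  refine hm_of_ex hinj (fun a b hab => ?_)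
  -- conjugate
  obtain ⟨ρ, hρ1, hρ2⟩ : ∃ ρ : Equiv.Perm (Fin q'), ρ l = a ∧ ρ l' = b := by
    refine ⟨Equiv.swap b (Equiv.swap l a l') * Equiv.swap l a, ?_, ?_⟩
    · rw [Equiv.Perm.mul_apply, Equiv.swap_apply_left, Equiv.swap_apply_of_ne_of_ne hab]
      intro e
      have : Equiv.swap l a l = Equiv.swap l a l' := by rw [Equiv.swap_apply_left]; exact e
      exact hll ((Equiv.swap l a).injective this)
    · rw [Equiv.Perm.mul_apply, Equiv.swap_apply_right]
  let τ := bm w hw.1.1 ρ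
  have hτ : τ ∈ AuG R := hw.1.bm ρ
  have hτw : ∀ c x, τ (w (c, x)) = w (ρ c, x) := fun c x => bm_apply w hw.1.1 ρ c x
  have hτi : ∀ c x, τ⁻¹ (w (c, x)) = w (ρ.symm c, x) := fun c x => by
    rw [Equiv.Perm.inv_eq_iff_eq, hτw, Equiv.apply_symm_apply]
  have hσw : IsSw σ (fun x => w (l, (e x).1)) (fun x => w (l', (e x).1)) := by
    refine ⟨fun x => hs.1 (e x), fun x => hs.2.1 (e x), fun v h1 h2 => hs.2.2 v (fun p => ?_) (fun p => ?_)⟩
    · have h3 : v ≠ w (l, (e (e.symm p)).1) := h1 (e.symm p)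
      rwa [Equiv.apply_symm_apply] at h3
    · have h3 : v ≠ w (l', (e (e.symm p)).1) := h2 (e.symm p)
      rwa [Equiv.apply_symm_apply] at h3
  refine ⟨τ * σ * τ⁻¹, (AuG R).mul_mem ((AuG R).mul_mem hτ hσ) ((AuG R).inv_mem hτ), ?_, ?_, ?_⟩
  · intro x
    show τ (σ (τ⁻¹ (w (a, (e x).1)))) = w (b, (e x).1)
    rw [hτi, ← hρ1, Equiv.symm_apply_apply, hσw.1 x, hτw, hρ2]
  · intro x
    show τ (σ (τ⁻¹ (w (b, (e x).1)))) = w (a, (e x).1)
    rw [hτi, ← hρ2, Equiv.symm_apply_apply, hσw.2.1 x, hτw, hρ1]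
  · intro v h1 h2
    show τ (σ (τ⁻¹ v)) = v
    rw [hσw.2.2]
    · exact τ.apply_symm_apply v
    · intro x e'
      refine h1 x ?_
      rw [Equiv.Perm.inv_eq_iff_eq] at e'
      rw [e', hτw, hρ1]
    · intro x e'
      refine h2 x ?_
      rw [Equiv.Perm.inv_eq_iff_eq] at e'
      rw [e', hτw, hρ2]

/-- `w` with an additional block `b` -/
def addB {V : Type} {q t : ℕ} (w : Fin q × Fin t → V) (b : Fin t → V) : Fin (q + 1) × Fin t → V :=
  fun p => if h : (p.1 : ℕ) < q then w (⟨p.1, h⟩, p.2) else b p.2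

lemma addB_cast {V : Type} {q t : ℕ} (w : Fin q × Fin t → V) (b : Fin t → V) (i : Fin q) (x : Fin t) :
    addB w b (i.castSucc, x) = w (i, x) := by
  have h : ((i.castSucc : Fin (q + 1)) : ℕ) < q := i.2
  show (if h : ((i.castSucc : Fin (q + 1)) : ℕ) < q then w (⟨_, h⟩, x) else b x) = w (i, x)
  rw [dif_pos h]
  rfl

lemma addB_last {V : Type} {q t : ℕ} (w : Fin q × Fin t → V) (b : Fin t → V) (x : Fin t) :
    addB w b (Fin.last q, x) = b x := by
  have h : ¬ ((Fin.last q : Fin (q + 1)) : ℕ) < q := by simp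
  show (if h : ((Fin.last q : Fin (q + 1)) : ℕ) < q then w (⟨_, h⟩, x) else b x) = b x
  rw [dif_neg h]

lemma addB_inj {V : Type} {q t : ℕ} {w : Fin q × Fin t → V} (hw : Function.Injective w)
    {b : Fin t → V} (hb : Function.Injective b) (hbw : ∀ x p, w p ≠ b x) :
    Function.Injective (addB w b) := by
  rintro ⟨a, x⟩ ⟨a', x'⟩
  refine Fin.lastCases ?_ (fun a => ?_) a <;> refine Fin.lastCases ?_ (fun a' => ?_) a'
  · intro e
    rw [addB_last, addB_last] at e
    rw [hb e]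
  · intro e
    rw [addB_last, addB_cast] at e
    exact absurd e.symm (hbw _ _)
  · intro e
    rw [addB_last, addB_cast] at e
    exact absurd e (hbw _ _)
  · intro e
    rw [addB_cast, addB_cast] at e
    have h1 := hw e
    have h2 : a = a' := congrArg Prod.fst h1
    have h3 : x = x' := congrArg Prod.snd h1
    rw [h2, h3]

/-- C1: one more block -/
theorem add_block {V : Type} {R : Interp S ar V} {q t : ℕ} {w : Fin q × Fin t → V} (hw : Hm R w) (i : Fin q)
    {b : Fin t → V} (hb : Function.Injective b) (hbw : ∀ x p, w p ≠ b x)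
    (hs : ∀ σ : Equiv.Perm V, (∀ x, σ (w (i, x)) = b x) → (∀ x, σ (b x) = w (i, x)) →
      (∀ z, (∀ x, w (i, x) ≠ z) → (∀ x, b x ≠ z) → σ z = z) → Au R σ) : Hm R (addB w b) := by
  have hi : Ex (AuG R) (fun x => w (i, x)) b := by
    obtain ⟨σ, s1, s2, s3⟩ := exists_sw (fun x => w (i, x)) b
      (fun x y e => congrArg Prod.snd (hw.1 e)) hb (fun x y e => hbw y _ e)
    exact ⟨fun x y e => congrArg Prod.snd (hw.1 e), hb, fun x y e => hbw y _ e, σ,
      hs σ s1 s2 (fun z h1 h2 => s3 z (fun x e => h1 x e.symm) (fun x e => h2 x e.symm)), s1, s2, s3⟩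
  have hall : ∀ c, Ex (AuG R) (fun x => w (c, x)) b := by
    intro c
    by_cases hc : c = i
    · rw [hc]; exact hi
    · exact (hw.ex hc).trans hi (fun x y e => hbw y _ e)
  refine hm_of_ex (addB_inj hw.1 hb hbw) (fun a a' => ?_)
  have ec : ∀ c : Fin q, (fun x => addB w b (c.castSucc, x)) = fun x => w (c, x) :=
    fun c => funext fun x => addB_cast w b c x
  have el : (fun x => addB w b (Fin.last q, x)) = b := funext fun x => addB_last w b x
  refine Fin.lastCases ?_ (fun a => ?_) a <;> refine Fin.lastCases ?_ (fun a' => ?_) a'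
  · intro h; exact absurd rfl h
  · intro _
    rw [ec, el]
    exact (hall a').symm.mem
  · intro _
    rw [ec, el]
    exact (hall a).mem
  · intro h
    rw [ec, ec]
    exact (hw.ex (fun e => h (by rw [e]))).mem

/-- fewer blocks -/
lemma Hm.fewerB {V : Type} {R : Interp S ar V} {q q' t : ℕ} {u : Fin q × Fin t → V} (hu : Hm R u)
    {g : Fin q' → Fin q} (hg : Function.Injective g) : Hm R (fun p : Fin q' × Fin t => u (g p.1, p.2)) := by
  refine hm_of_ex ?_ (fun a b hab => (hu.ex (fun e => hab (hg e))).mem)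
  rintro ⟨a, x⟩ ⟨b, y⟩ e
  have h1 := hu.1 e
  have h2 : g a = g b := congrArg Prod.fst h1
  have h3 : x = y := congrArg Prod.snd h1
  exact Prod.ext (hg h2) h3

/-- C2: a big family which meets a maximal one is contained in it -/
theorem max_of {V : Type} {R : Interp S ar V} {r k N : ℕ} (hr : ∀ s, ar s ≤ r) (hN : 2 * k + r + 4 ≤ N)
    {q t : ℕ} {w : Fin q × Fin t → V} (hw : Mx R k N w) {q' t' : ℕ} {u : Fin q' × Fin t' → V} (hu : Big R k N u)
    (h : (Set.range u ∩ Set.range w).Nonempty) : Set.range u ⊆ Set.range w := by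
  classical
  obtain ⟨z, ⟨⟨i, x⟩, hx⟩, ⟨⟨j, y⟩, hy⟩⟩ := h
  obtain ⟨⟨hwI, hwt, hwq⟩, hmax⟩ := hw
  obtain ⟨huI, hut, huq⟩ := hu
  -- blocks which meet are equal
  have h1 := meet hr hN huI.1 hut huq hwI hwt hwq (hx.trans hy.symm)
  have h2 := meet hr hN hwI.1 hwt hwq huI hut huq (hy.trans hx.symm)
  choose f hf using h1
  have hfinj : Function.Injective f := by
    intro a b e
    have h3 : w (j, a) = w (j, b) := by rw [hf, hf, e]
    exact congrArg Prod.snd (hwI.1.1 h3)
  have hfsurj : Function.Surjective f := by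
    intro x'
    obtain ⟨y', hy'⟩ := h2 x'
    refine ⟨y', ?_⟩
    have h3 : u (i, x') = u (i, f y') := hy'.trans (hf y')
    exact (congrArg Prod.snd (huI.1.1 h3)).symm
  -- the blocks of `u`
  rintro _ ⟨⟨i', x'⟩, rfl⟩
  by_contra hcon
  have hdisj : ∀ x p, w p ≠ u (i', x) := by
    rintro x'' ⟨j', y'⟩ e
    obtain ⟨y₁, hy₁⟩ := meet hr hN hwI.1 hwt hwq huI hut huq e x'
    exact hcon ⟨(j', y₁), hy₁.symm⟩
  have hii : i' ≠ i := by
    rintro rfl
    exact hdisj x (j, y) (hy.trans hx.symm)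
  let b : Fin t → V := fun y => u (i', f y)
  have hb : Function.Injective b := fun a c e => hfinj (congrArg Prod.snd (huI.1.1 e))
  have hH : Hm R (addB w b) := by
    refine add_block hwI.1 j hb (fun x p => hdisj _ p) (fun σ s1 s2 s3 => ?_)
    have hs : IsSw σ (fun x => u (i, x)) (fun x => u (i', x)) := by
      refine ⟨fun x => ?_, fun x => ?_, fun v g1 g2 => ?_⟩
      · obtain ⟨y', rfl⟩ := hfsurj x
        show σ (u (i, f y')) = u (i', f y')
        rw [← hf, s1]
      · obtain ⟨y', rfl⟩ := hfsurj x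
        show σ (u (i', f y')) = u (i, f y')
        rw [← hf]
        exact s2 y'
      · refine s3 v (fun y' e => ?_) (fun y' e => ?_)
        · exact g1 (f y') (by show v = u (i, f y'); rw [← hf]; exact e.symm)
        · exact g2 (f y') e.symm
    obtain ⟨τ, hτ, hτs⟩ := (huI.1.ex hii.symm).mem
    rw [IsSw.unique hs hτs]
    exact hτ
  have hBig : Big R k N (addB w b) := by
    refine ⟨⟨hH, hwI.2.1, fun t₁ e he h1 h2 hP => ?_⟩, hwt, hwq.trans (Nat.le_succ q)⟩
    refine hwI.2.2 t₁ e he h1 h2 ?_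
    have h3 := hP.fewerB (g := Fin.castSucc) (Fin.castSucc_injective q)
    have h4 : (fun p : Fin q × Fin t₁ => addB w b (p.1.castSucc, e p.2)) =
        fun p : Fin q × Fin t₁ => w (p.1, e p.2) := funext fun p => addB_cast w b p.1 (e p.2)
    rw [← h4]
    exact h3
  have hsub := hmax _ _ _ hBig (by
    rintro _ ⟨⟨a, c⟩, rfl⟩
    exact ⟨(a.castSucc, c), addB_cast w b a c⟩)
  obtain ⟨p, hp⟩ := hsub ⟨(Fin.last q, y), addB_last w b y⟩
  exact hdisj _ p hp

set_option linter.unusedVariables false in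
/-- C3: existence of maximal families -/
theorem exists_max {V : Type} [Finite V] {R : Interp S ar V} {k N : ℕ} (hk : 1 ≤ N) {q t : ℕ} {u : Fin q × Fin t → V}
    (hu : Big R k N u) : ∃ (q' t' : ℕ) (w : Fin q' × Fin t' → V), Mx R k N w ∧ Set.range u ⊆ Set.range w := by
  classical
  let P : ℕ → Prop := fun m => ∃ (q' t' : ℕ) (w : Fin q' × Fin t' → V), Big R k N w ∧
    Set.range u ⊆ Set.range w ∧ (Set.range w).ncard = m
  have hP : P (Set.range u).ncard := ⟨q, t, u, hu, subset_rfl, rfl⟩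
  have hb : ∀ m, P m → m ≤ Nat.card V := by
    rintro m ⟨q', t', w, -, -, rfl⟩
    exact Set.ncard_le_card _
  let m := Nat.findGreatest P (Nat.card V)
  have hm : P m := Nat.findGreatest_spec (hb _ hP) hP
  obtain ⟨q', t', w, hw, huw, hwm⟩ := hm
  refine ⟨q', t', w, ⟨hw, fun q₁ t₁ w₁ hw₁ hsub => ?_⟩, huw⟩
  have h1 : P (Set.range w₁).ncard := ⟨q₁, t₁, w₁, hw₁, huw.trans hsub, rfl⟩
  have h2 : (Set.range w₁).ncard ≤ m := Nat.le_findGreatest (hb _ h1) h1
  rw [← hwm] at h2
  exact (Set.eq_of_subset_of_ncard_le hsub h2 (Set.toFinite _)).symm.subset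

end Pool.Agent.Helper53.AJ
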